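import Pool.Agent.Run7.h472.OH.Iface3
import Pool.Agent.N390.FL.TI

/-!
# Project OH (helper472): the pieces LBB and UBB
-/

set_option autoImplicit false

open MeasureTheory ProbabilityTheory Filter Set
open scoped ENNReal Topology

namespace Pool.Agent.Run7.h957.OH

open Pool.Agent.N662.FP Pool.Agent.Run7.h472.OH
open Pool.Agent.N390.FL.TI (sg sg_inj D_shift)

/-- translation invariance of the law of the passage time -/
lemma lawD (h1 : S_ME) (h2 : S_AE) {Ω : Type} [MeasureSpace Ω]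
    [IsProbabilityMeasure (volume : Measure Ω)] {X : Sym2 (ℤ × ℤ) → Ω → ℝ} (hX : Iid X)
    (a z : ℤ × ℤ) {B : Set ℝ} (hB : MeasurableSet B) :
    (volume : Measure Ω).real {ω | D (env X ω) a (a + z) ∈ B} =
      (volume : Measure Ω).real {ω | D (env X ω) 0 z ∈ B} := by
  set Φ : (Sym2 (ℤ × ℤ) → ℝ) → ℝ := fun x => D (fun e => max (x e) 0) 0 z with hΦ
  have hae := h2 Ω X hX
  have hE : MeasurableSet {x | Φ x ∈ B} := (h1 0 z) hB
  have e1 : (volume : Measure Ω) {ω | D (env X ω) a (a + z) ∈ B} =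
      (volume : Measure Ω)
        ((fun ω (e : Sym2 (ℤ × ℤ)) => X (sg a e) ω) ⁻¹' {x | Φ x ∈ B}) := by
    refine measure_congr ?_
    filter_upwards [hae] with ω hω
    have h3 : D (env X ω) a (a + z) = Φ (fun e => X (sg a e) ω) := by
      rw [D_shift]
      show D _ 0 z = D _ 0 z
      congr 1
      funext e
      exact (max_eq_left (hω (sg a e))).symm
    show (D (env X ω) a (a + z) ∈ B) = (Φ (fun e => X (sg a e) ω) ∈ B)
    rw [h3]
  have e2 : (volume : Measure Ω) {ω | D (env X ω) 0 z ∈ B} =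
      (volume : Measure Ω)
        ((fun ω (e : Sym2 (ℤ × ℤ)) => X e ω) ⁻¹' {x | Φ x ∈ B}) := by
    refine measure_congr ?_
    filter_upwards [hae] with ω hω
    have h3 : D (env X ω) 0 z = Φ (fun e => X e ω) := by
      show D _ 0 z = D _ 0 z
      congr 1
      funext e
      exact (max_eq_left (hω e)).symm
    show (D (env X ω) 0 z ∈ B) = (Φ (fun e => X e ω) ∈ B)
    rw [h3]
  have m1 : Measurable (fun ω (e : Sym2 (ℤ × ℤ)) => X (sg a e) ω) :=
    measurable_pi_iff.2 fun e => hX.meas _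
  have m2 : Measurable (fun ω (e : Sym2 (ℤ × ℤ)) => X e ω) := measurable_pi_iff.2 fun e => hX.meas e
  have l1 : Measure.map (fun ω (e : Sym2 (ℤ × ℤ)) => X (sg a e) ω) (volume : Measure Ω) =
      Measure.infinitePi (fun _ : Sym2 (ℤ × ℤ) => expMeasure 1) := by
    have h3 : iIndepFun (fun e => X (sg a e)) (volume : Measure Ω) := hX.ind.precomp (sg_inj a)
    have h4 := (iIndepFun_iff_map_fun_eq_infinitePi_map (fun e => hX.meas (sg a e))).1 h3
    rw [h4]
    congr 1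
    funext e
    exact hX.law _
  have l2 : Measure.map (fun ω (e : Sym2 (ℤ × ℤ)) => X e ω) (volume : Measure Ω) =
      Measure.infinitePi (fun _ : Sym2 (ℤ × ℤ) => expMeasure 1) := by
    have h4 := (iIndepFun_iff_map_fun_eq_infinitePi_map hX.meas).1 hX.ind
    rw [h4]
    congr 1
    funext e
    exact hX.law _
  rw [measureReal_def, measureReal_def, e1, e2, ← Measure.map_apply m1 hE,
    ← Measure.map_apply m2 hE, l1, l2]

/-- union bound over the pairs of points of a box -/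
lemma union_box {Ω : Type} [MeasureSpace Ω] [IsProbabilityMeasure (volume : Measure Ω)]
    (t : ℝ) (ht : 1 ≤ t) (P : ℤ × ℤ → ℤ × ℤ → Ω → Prop) (p : ℝ) (hp0 : 0 ≤ p)
    (hp : ∀ u v, (nm u : ℝ) ≤ t → (nm v : ℝ) ≤ t → (volume : Measure Ω).real {ω | P u v ω} ≤ p) :
    (volume : Measure Ω).real {ω | ∃ u v : ℤ × ℤ, (nm u : ℝ) ≤ t ∧ (nm v : ℝ) ≤ t ∧ P u v ω} ≤
      (3 * t) ^ 4 * p := by
  set m : ℕ := ⌊t⌋₊ with hm
  have hmt : (m : ℝ) ≤ t := Nat.floor_le (by linarith)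
  set F : Finset (ℤ × ℤ) := (Finset.Icc (-(m : ℤ)) m) ×ˢ (Finset.Icc (-(m : ℤ)) m) with hF
  have hFm : ∀ u : ℤ × ℤ, u ∈ F ↔ (nm u : ℝ) ≤ t := by
    intro u
    have h1 : (nm u : ℝ) ≤ t ↔ nm u ≤ m := (Nat.le_floor_iff (by linarith)).symm
    rw [h1, hF, Finset.mem_product, Finset.mem_Icc, Finset.mem_Icc]
    unfold nm
    omega
  have hsub : {ω | ∃ u v : ℤ × ℤ, (nm u : ℝ) ≤ t ∧ (nm v : ℝ) ≤ t ∧ P u v ω} ⊆
      ⋃ w ∈ F ×ˢ F, {ω | P w.1 w.2 ω} := by
    rintro ω ⟨u, v, hu, hv, hP⟩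
    refine mem_biUnion (x := (u, v)) ?_ hP
    exact Finset.mem_coe.2 (Finset.mem_product.2 ⟨(hFm u).2 hu, (hFm v).2 hv⟩)
  have h1 : (volume : Measure Ω).real (⋃ w ∈ F ×ˢ F, {ω | P w.1 w.2 ω}) ≤
      ∑ w ∈ F ×ˢ F, (volume : Measure Ω).real {ω | P w.1 w.2 ω} :=
    measureReal_biUnion_finset_le _ _
  have h2 : ∑ w ∈ F ×ˢ F, (volume : Measure Ω).real {ω | P w.1 w.2 ω} ≤ (F ×ˢ F).card • p := by
    refine Finset.sum_le_card_nsmul _ _ _ fun w hw => ?_
    rw [Finset.mem_product] at hw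
    exact hp _ _ ((hFm _).1 hw.1) ((hFm _).1 hw.2)
  have h3 : ((F ×ˢ F).card : ℝ) ≤ (3 * t) ^ 4 := by
    have h4 : (F.card : ℝ) = (2 * (m : ℝ) + 1) ^ 2 := by
      rw [hF, Finset.card_product, Int.card_Icc]
      have : ((m : ℤ) + 1 - -(m : ℤ)).toNat = 2 * m + 1 := by omega
      rw [this]
      push_cast
      ring
    rw [Finset.card_product]
    push_cast
    rw [h4]
    have h5 : 0 ≤ 2 * (m : ℝ) + 1 := by positivity
    have h6 : 2 * (m : ℝ) + 1 ≤ 3 * t := by linarith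
    calc (2 * (m : ℝ) + 1) ^ 2 * (2 * (m : ℝ) + 1) ^ 2 = (2 * (m : ℝ) + 1) ^ 4 := by ring
      _ ≤ (3 * t) ^ 4 := pow_le_pow_left₀ h5 h6 4
  calc _ ≤ (volume : Measure Ω).real (⋃ w ∈ F ×ˢ F, {ω | P w.1 w.2 ω}) :=
        measureReal_mono hsub (measure_ne_top _ _)
    _ ≤ (F ×ˢ F).card • p := h1.trans h2
    _ = ((F ×ˢ F).card : ℝ) * p := nsmul_eq_mul _ _
    _ ≤ (3 * t) ^ 4 * p := mul_le_mul_of_nonneg_right h3 hp0

/-- the asymptotic comparison -/
lemma asym (α c K : ℝ) (hα : 0 < α) (hc : 0 < c) :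
    ∀ᶠ t : ℝ in atTop, (3 * t) ^ 4 * (K * Real.exp (-(c * t ^ α))) ≤ Real.exp (-(t ^ (α / 2))) := by
  have hc2 : 0 < c / 2 := by positivity
  have h1 := tendsto_rpow_mul_exp_neg_mul_atTop_nhds_zero (4 / α) (c / 2) hc2
  have h2 := (h1.comp (tendsto_rpow_atTop hα)).const_mul (81 * K)
  rw [mul_zero] at h2
  have h3 := h2.eventually (ge_mem_nhds (zero_lt_one' ℝ))
  have h4 := (tendsto_rpow_atTop (show 0 < α / 2 by positivity)).eventually_ge_atTop (2 / c)
  filter_upwards [h3, h4, eventually_gt_atTop (0 : ℝ)] with t a1 a2 a3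
  simp only [Function.comp] at a1
  have b1 : (t ^ α) ^ (4 / α) = t ^ 4 := by
    rw [← Real.rpow_mul a3.le, mul_div_cancel₀ _ hα.ne']
    exact_mod_cast Real.rpow_natCast t 4
  rw [b1] at a1
  have b2 : t ^ (α / 2) ≤ c / 2 * t ^ α := by
    have b3 : t ^ α = t ^ (α / 2) * t ^ (α / 2) := by
      rw [← Real.rpow_add a3]
      congr 1
      ring
    have b4 : 0 < t ^ (α / 2) := Real.rpow_pos_of_pos a3 _
    rw [div_le_iff₀ hc] at a2
    rw [b3]
    nlinarith
  have b5 : Real.exp (-(c * t ^ α)) = Real.exp (-(c / 2) * t ^ α) * Real.exp (-(c / 2 * t ^ α)) := by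
    rw [← Real.exp_add]
    congr 1
    ring
  have b6 : Real.exp (-(c / 2 * t ^ α)) ≤ Real.exp (-(t ^ (α / 2))) :=
    Real.exp_le_exp.2 (by linarith)
  calc (3 * t) ^ 4 * (K * Real.exp (-(c * t ^ α)))
      = (81 * K * (t ^ 4 * Real.exp (-(c / 2) * t ^ α))) * Real.exp (-(c / 2 * t ^ α)) := by
        rw [b5]
        ring
    _ ≤ 1 * Real.exp (-(c / 2 * t ^ α)) :=
        mul_le_mul_of_nonneg_right a1 (Real.exp_pos _).le
    _ ≤ Real.exp (-(t ^ (α / 2))) := by rw [one_mul]; exact b6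

lemma nm_sub (u v : ℤ × ℤ) : nm (v - u) ≤ nm u + nm v := by
  unfold nm
  simp only [Prod.fst_sub, Prod.snd_sub]
  omega

lemma mu_le {μ : Seminorm ℝ (ℝ × ℝ)} {c C : ℝ} {L : ℕ} (hc : Cst μ c C L) {t : ℝ} {u v : ℤ × ℤ}
    (hu : (nm u : ℝ) ≤ t) (hv : (nm v : ℝ) ≤ t) : μ (em (v - u)) ≤ 2 * C * t := by
  have h1 : ((nm (v - u) : ℕ) : ℝ) ≤ (nm u : ℝ) + (nm v : ℝ) := by exact_mod_cast nm_sub u v
  have h2 := hc.hi (v - u)
  have h3 := hc.C_pos
  nlinarith

theorem t_LBB (h1 : S_ME) (h2 : S_AE) (h3 : S_GE) : S_LBB := by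
  intro Ω _ _ X hX μ c C L hc κ κ2 A hκ hκ2 hκ21 hA hbd
  have hC := hc.C_pos
  have hκ2p : 0 < κ2 := hκ.trans hκ2
  have hα : 0 < 1 - κ / κ2 := by
    rw [sub_pos, div_lt_one hκ2p]
    exact hκ2
  have hexp : 1 - 1 / κ2 ≤ 0 := by
    rw [sub_nonpos, le_div_iff₀ hκ2p, one_mul]
    exact hκ21
  set c' : ℝ := (2 * C) ^ (1 - 1 / κ2) with hc'
  have hc'0 : 0 < c' := Real.rpow_pos_of_pos (by positivity) _
  refine ⟨(1 - κ / κ2) / 2, by positivity, ?_⟩
  filter_upwards [asym (1 - κ / κ2) (c' / A) A hα (by positivity), eventually_ge_atTop (1 : ℝ)]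
    with t ht ht1
  have ht0 : 0 < t := by linarith
  refine le_trans ?_ ht
  refine union_box t ht1 (fun u v ω => D (env X ω) u v < μ (em (v - u)) - t ^ (1 - κ))
    (A * Real.exp (-(c' / A * t ^ (1 - κ / κ2)))) (by positivity) ?_
  intro u v hu hv
  have hmu := mu_le hc hu hv
  have htr := lawD h1 h2 hX u (v - u) (measurableSet_Iio (a := μ (em (v - u)) - t ^ (1 - κ)))
  have huv : u + (v - u) = v := by abel
  rw [huv] at htr
  simp only [mem_Iio] at htr
  rw [htr]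
  have htk : 0 < t ^ (1 - κ) := Real.rpow_pos_of_pos ht0 _
  by_cases hcase : μ (em (v - u)) ≤ t ^ (1 - κ)
  · -- the event is null
    have hz : (volume : Measure Ω) {ω | D (env X ω) 0 (v - u) < μ (em (v - u)) - t ^ (1 - κ)} = 0 := by
      have hae := h2 Ω X hX
      have h4 : ∀ᵐ ω ∂(volume : Measure Ω),
          ¬ (D (env X ω) 0 (v - u) < μ (em (v - u)) - t ^ (1 - κ)) := by
        filter_upwards [hae] with ω hω
        have h5 := (h3 (env X ω) hω 0 (v - u)).2.2.1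
        rw [not_lt]
        linarith
      rw [ae_iff] at h4
      simpa only [not_not] using h4
    rw [measureReal_def, hz, ENNReal.toReal_zero]
    positivity
  · push Not at hcase
    have hmp : 0 < μ (em (v - u)) := htk.trans hcase
    set δ : ℝ := t ^ (1 - κ) / μ (em (v - u)) with hδ
    have hδ0 : 0 < δ := by positivity
    have hδ1 : δ ≤ 1 := by
      rw [hδ, div_le_one hmp]
      exact hcase.le
    have h4 := hbd (v - u) δ hδ0 hδ1
    have h5 : (1 - δ) * μ (em (v - u)) = μ (em (v - u)) - t ^ (1 - κ) := by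
      rw [hδ]
      field_simp
    rw [h5] at h4
    have h6 : (volume : Measure Ω).real {ω | D (env X ω) 0 (v - u) <
        μ (em (v - u)) - t ^ (1 - κ)} ≤ (volume : Measure Ω).real {ω | D (env X ω) 0 (v - u) ≤
        μ (em (v - u)) - t ^ (1 - κ)} := by
      refine measureReal_mono ?_
      intro ω hω
      have hω' : D (env X ω) 0 (v - u) < μ (em (v - u)) - t ^ (1 - κ) := hω
      exact hω'.le
    refine h6.trans (h4.trans ?_)
    refine mul_le_mul_of_nonneg_left ?_ hA.le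
    rw [Real.exp_le_exp, neg_le_neg_iff]
    have h7 : c' * t ^ (1 - κ / κ2) ≤ δ ^ (1 / κ2) * μ (em (v - u)) := by
      have e1 : δ ^ (1 / κ2) * μ (em (v - u)) =
          t ^ ((1 - κ) / κ2) * μ (em (v - u)) ^ (1 - 1 / κ2) := by
        rw [hδ, Real.div_rpow htk.le hmp.le, ← Real.rpow_mul ht0.le, Real.rpow_sub hmp,
          Real.rpow_one]
        have : (1 - κ) * (1 / κ2) = (1 - κ) / κ2 := by ring
        rw [this]
        ring
      have e2 : (2 * C * t) ^ (1 - 1 / κ2) ≤ μ (em (v - u)) ^ (1 - 1 / κ2) :=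
        Real.rpow_le_rpow_of_nonpos hmp hmu hexp
      have e3 : c' * t ^ (1 - κ / κ2) = t ^ ((1 - κ) / κ2) * (2 * C * t) ^ (1 - 1 / κ2) := by
        rw [Real.mul_rpow (by positivity) ht0.le, hc']
        have : t ^ (1 - κ / κ2) = t ^ ((1 - κ) / κ2) * t ^ (1 - 1 / κ2) := by
          rw [← Real.rpow_add ht0]
          congr 1
          ring
        rw [this]
        ring
      rw [e1, e3]
      exact mul_le_mul_of_nonneg_left e2 (Real.rpow_nonneg ht0.le _)
    rw [le_div_iff₀ hA]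
    have h8 : c' / A * t ^ (1 - κ / κ2) * A = c' * t ^ (1 - κ / κ2) := by
      field_simp
    rw [h8]
    exact h7

theorem t_UBB (h1 : S_ME) (h2 : S_AE) : S_UBB := by
  intro Ω _ _ X hX μ c C L hc κ κ2 R hκ hκ2 hκ21 hR hbd
  have hC := hc.C_pos
  have hα : 0 < κ2 - κ := sub_pos.2 hκ2
  set R' : ℝ := R * (1 + 2 * C) ^ (1 - κ2) with hR'
  have hR'0 : 0 < R' := by
    have : 0 < (1 + 2 * C) ^ (1 - κ2) := Real.rpow_pos_of_pos (by positivity) _
    positivity
  refine ⟨(κ2 - κ) / 2, by positivity, ?_⟩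
  filter_upwards [asym (κ2 - κ) (1 / (2 * R')) 1 hα (by positivity), eventually_ge_atTop (1 : ℝ),
    (tendsto_rpow_atTop hα).eventually_ge_atTop (2 * R')] with t ht ht1 ht2
  have ht0 : 0 < t := by linarith
  refine le_trans ?_ ht
  refine union_box t ht1 (fun u v ω => μ (em (v - u)) + t ^ (1 - κ) < D (env X ω) u v)
    (1 * Real.exp (-(1 / (2 * R') * t ^ (κ2 - κ)))) (by positivity) ?_
  intro u v hu hv
  have hmu := mu_le hc hu hv
  have htr := lawD h1 h2 hX u (v - u) (measurableSet_Ioi (a := μ (em (v - u)) + t ^ (1 - κ)))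
  have huv : u + (v - u) = v := by abel
  rw [huv] at htr
  simp only [mem_Ioi] at htr
  rw [htr, one_mul]
  have hmn : 0 ≤ μ (em (v - u)) := apply_nonneg μ _
  obtain ⟨r, hr⟩ : ∃ r : ℝ, r = R * (1 + μ (em (v - u))) ^ (1 - κ2) := ⟨_, rfl⟩
  have hr0 : 0 < r := by
    rw [hr]
    have : 0 < (1 + μ (em (v - u))) ^ (1 - κ2) := Real.rpow_pos_of_pos (by positivity) _
    positivity
  have hrle : r ≤ R' * t ^ (1 - κ2) := by
    rw [hr, hR', mul_assoc, ← Real.mul_rpow (by positivity) ht0.le]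
    refine mul_le_mul_of_nonneg_left ?_ hR.le
    refine Real.rpow_le_rpow (by positivity) ?_ (by linarith)
    nlinarith
  have hsplit : t ^ (1 - κ) = t ^ (κ2 - κ) * t ^ (1 - κ2) := by
    rw [← Real.rpow_add ht0]
    congr 1
    ring
  have htk2 : 0 < t ^ (1 - κ2) := Real.rpow_pos_of_pos ht0 _
  have hbig : 2 * (R' * t ^ (1 - κ2)) ≤ t ^ (1 - κ) := by
    rw [hsplit]
    nlinarith
  have hu0 : 0 ≤ t ^ (1 - κ) - r := by linarith
  have h4 := hbd (v - u) (t ^ (1 - κ) - r) hu0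
  rw [← hr] at h4
  have h6 : (volume : Measure Ω).real {ω | μ (em (v - u)) + t ^ (1 - κ) < D (env X ω) 0 (v - u)} ≤
      (volume : Measure Ω).real {ω | μ (em (v - u)) + r + (t ^ (1 - κ) - r) ≤
        D (env X ω) 0 (v - u)} := by
    refine measureReal_mono ?_
    intro ω hω
    have : μ (em (v - u)) + t ^ (1 - κ) < D (env X ω) 0 (v - u) := hω
    show μ (em (v - u)) + r + (t ^ (1 - κ) - r) ≤ D (env X ω) 0 (v - u)
    linarith
  refine h6.trans (h4.trans ?_)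
  rw [Real.exp_le_exp, neg_le_neg_iff, le_div_iff₀ hr0]
  have h7 : 1 / (2 * R') * t ^ (κ2 - κ) * r ≤ 1 / (2 * R') * t ^ (κ2 - κ) * (R' * t ^ (1 - κ2)) := by
    refine mul_le_mul_of_nonneg_left hrle ?_
    have : 0 < t ^ (κ2 - κ) := Real.rpow_pos_of_pos ht0 _
    positivity
  have h8 : 1 / (2 * R') * t ^ (κ2 - κ) * (R' * t ^ (1 - κ2)) = t ^ (1 - κ) / 2 := by
    rw [hsplit]
    field_simp
  linarith

end Pool.Agent.Run7.h957.OH
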